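import Pool.Agent.PSV.StmtsS
import Pool.Agent.PSV.StmtsG
import Pool.Agent.Helper20_MTD.Trg

/-! Squad PSV, module TRB: the constants of the translate. -/

set_option autoImplicit false

namespace Pool.Agent.PSV.H86

open Matrix PowerSeries Pool.Agent.MT100 Pool.Agent.MT100.H27 Pool.Agent.MT100.H34
  Pool.Agent.MT100D Pool.Agent.MT100D.H20

noncomputable section

theorem gtc_mono {B B' : ℕ} {f : PowerSeries ℚ} (h : B ≤ B') (hf : GTC B f) : GTC B' f := by
  intro k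
  obtain ⟨D, h1, h2, h3⟩ := (hf k).2
  exact ⟨(hf k).1.trans (pow_le_pow_left₀ (Nat.cast_nonneg _) (by exact_mod_cast h) _),
    D, h1, h2.trans (Nat.pow_le_pow_left h _), h3⟩

/-! ### Substitution -/

theorem gtc_sv {A b : ℕ} (hA : 1 ≤ A) (hb : 0 < b) {V : PowerSeries ℚ} (hV : Geo 1 b V)
    {f : PowerSeries ℚ} (hf : GTC A f) : GTC (4 * A * b) (sv V f) := by
  have hA1 : (1 : ℚ) ≤ A := by exact_mod_cast hA
  have hb1 : (1 : ℚ) ≤ b := by exact_mod_cast hb
  intro k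
  constructor
  · rw [coeff_sv]
    have h1 : ∀ d ∈ Finset.range (k + 1), |coeff d f * coeff (k - d) (V ^ d)| ≤
        (A : ℚ) ^ (k + 1) * (2 * b : ℚ) ^ (k + 1) := by
      intro d hd
      have hd' : d ≤ k := Nat.lt_succ_iff.mp (Finset.mem_range.mp hd)
      rw [abs_mul]
      have h2 : |coeff d f| ≤ (A : ℚ) ^ (k + 1) :=
        (hf d).1.trans (pow_le_pow_right₀ hA1 (by omega))
      have h3 : |coeff (k - d) (V ^ d)| ≤ (2 * b : ℚ) ^ (k + 1) :=
        (geo_pow hb hV d (k - d)).2.trans (pow_le_pow_right₀ (by linarith) (by omega))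
      exact mul_le_mul h2 h3 (abs_nonneg _) (by positivity)
    refine (Finset.abs_sum_le_sum_abs _ _).trans ((Finset.sum_le_sum h1).trans ?_)
    rw [Finset.sum_const, Finset.card_range, nsmul_eq_mul]
    have h5 : ((k + 1 : ℕ) : ℚ) ≤ 2 ^ (k + 1) := by exact_mod_cast (Nat.lt_two_pow_self).le
    calc ((k + 1 : ℕ) : ℚ) * ((A : ℚ) ^ (k + 1) * (2 * b : ℚ) ^ (k + 1))
        ≤ 2 ^ (k + 1) * ((A : ℚ) ^ (k + 1) * (2 * b : ℚ) ^ (k + 1)) :=
          mul_le_mul_of_nonneg_right h5 (by positivity)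
      _ = ((4 * A * b : ℕ) : ℚ) ^ (k + 1) := by
          rw [← mul_pow, ← mul_pow]
          congr 1
          push_cast
          ring
  · obtain ⟨Dn, hD1, hD2, hD3⟩ := (hf k).2
    refine ⟨Dn, hD1, hD2.trans (Nat.pow_le_pow_left ?_ _), ?_⟩
    · calc A = 1 * A * 1 := by ring
        _ ≤ 4 * A * b := Nat.mul_le_mul (Nat.mul_le_mul_right _ (by norm_num)) hb
    · intro i hi
      have h1 : ∀ d ∈ Finset.range (i + 1), ∃ z : ℤ,
          (Dn : ℚ) * (coeff d f * coeff (i - d) (V ^ d)) = z := by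
        intro d hd
        have hd1 : d ≤ i := Nat.lt_succ_iff.mp (Finset.mem_range.mp hd)
        obtain ⟨z, hz⟩ := hD3 d (by omega)
        obtain ⟨y, hy⟩ := (geo_pow hb hV d (i - d)).1
        refine ⟨z * y, ?_⟩
        rw [Nat.cast_one, one_pow, one_mul] at hy
        push_cast
        rw [← hz, ← hy]
        ring
      choose! g hg using h1
      refine ⟨∑ d ∈ Finset.range (i + 1), g d, ?_⟩
      rw [coeff_sv, Finset.mul_sum, Int.cast_sum]
      exact Finset.sum_congr rfl fun d hd => hg d hd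

/-! ### The logarithm -/

theorem gtc_prim : ∃ A : ℕ, 1 ≤ A ∧ ∀ (B : ℕ) (f : PowerSeries ℚ), 1 ≤ B → GTC B f →
    GTC (A * B) (PowerSeries.mk fun k => if k = 0 then 0 else coeff (k - 1) f / (k : ℚ)) := by
  obtain ⟨A, hA⟩ : ∃ A : ℕ, Real.exp (Real.log 4 + 4) ≤ A := exists_nat_ge _
  have hA1 : 1 ≤ A := by
    have h1 : (1 : ℝ) ≤ Real.exp (Real.log 4 + 4) := by
      rw [Real.one_le_exp_iff]
      have := Real.log_nonneg (show (1 : ℝ) ≤ 4 by norm_num)
      linarith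
    exact_mod_cast h1.trans hA
  refine ⟨A, hA1, ?_⟩
  intro B f hB hf
  have hB1 : (1 : ℚ) ≤ B := by exact_mod_cast hB
  have hA2 : (1 : ℚ) ≤ A := by exact_mod_cast hA1
  refine fun k => ⟨?_, ?_⟩
  · rw [coeff_mk]
    by_cases hk : k = 0
    · rw [if_pos hk, abs_zero]
      positivity
    · rw [if_neg hk, abs_div, Nat.abs_cast]
      have hk1 : (1 : ℚ) ≤ k := by exact_mod_cast Nat.one_le_iff_ne_zero.mpr hk
      calc |coeff (k - 1) f| / (k : ℚ) ≤ |coeff (k - 1) f| := div_le_self (abs_nonneg _) hk1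
        _ ≤ (B : ℚ) ^ (k - 1 + 1) := (hf (k - 1)).1
        _ ≤ (B : ℚ) ^ (k + 1) := pow_le_pow_right₀ hB1 (by omega)
        _ ≤ ((A * B : ℕ) : ℚ) ^ (k + 1) := by
            apply pow_le_pow_left₀ (by positivity)
            push_cast
            nlinarith
  · obtain ⟨Dn, hD1, hD2, hD3⟩ := (hf k).2
    refine ⟨Nat.lcmUpto k * Dn, Nat.mul_pos (Nat.lcmUpto_pos k) hD1, ?_, ?_⟩
    · have h1 : (Nat.lcmUpto k : ℝ) ≤ (A : ℝ) ^ k := by
        have h2 : Real.log (Nat.lcmUpto k) ≤ (Real.log 4 + 4) * k := by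
          rw [← Chebyshev.psi_eq_log_lcmUpto]
          exact Chebyshev.psi_le_const_mul_self (Nat.cast_nonneg k)
        have h3 : (0 : ℝ) < Nat.lcmUpto k := by exact_mod_cast Nat.lcmUpto_pos k
        calc (Nat.lcmUpto k : ℝ) = Real.exp (Real.log (Nat.lcmUpto k)) :=
              (Real.exp_log h3).symm
          _ ≤ Real.exp ((Real.log 4 + 4) * k) := Real.exp_le_exp.mpr h2
          _ = Real.exp (Real.log 4 + 4) ^ k := by rw [mul_comm, Real.exp_nat_mul]
          _ ≤ (A : ℝ) ^ k := pow_le_pow_left₀ (Real.exp_pos _).le hA _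
      have h4 : Nat.lcmUpto k ≤ A ^ k := by exact_mod_cast h1
      calc Nat.lcmUpto k * Dn ≤ A ^ (k + 1) * B ^ (k + 1) :=
            Nat.mul_le_mul (h4.trans (Nat.pow_le_pow_right hA1 (by omega))) hD2
        _ = (A * B) ^ (k + 1) := (mul_pow _ _ _).symm
    · intro i hi
      rw [coeff_mk]
      by_cases h0 : i = 0
      · refine ⟨0, ?_⟩
        rw [if_pos h0, mul_zero, Int.cast_zero]
      · rw [if_neg h0]
        have hdvd : i ∣ Nat.lcmUpto k :=
          Finset.dvd_lcm (f := id) (Finset.mem_Icc.mpr ⟨Nat.one_le_iff_ne_zero.mpr h0, hi⟩)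
        obtain ⟨c, hc⟩ := hdvd
        obtain ⟨z, hz⟩ := hD3 (i - 1) (by omega)
        refine ⟨c * z, ?_⟩
        rw [hc]
        have hi0 : (i : ℚ) ≠ 0 := by exact_mod_cast h0
        push_cast
        rw [← hz]
        field_simp

/-- the coefficients of `1 / (1 - κ X)` -/
theorem gV_eq (κ : ℕ) : gV κ = PowerSeries.mk fun k => (κ : ℚ) ^ k := by
  have hc : PowerSeries.constantCoeff
      ((1 - Polynomial.C (κ : ℚ) * Polynomial.X : Polynomial ℚ) : PowerSeries ℚ) ≠ 0 := by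
    rw [← coeff_zero_eq_constantCoeff_apply, Polynomial.coeff_coe]
    simp
  unfold gV
  rw [PowerSeries.inv_eq_iff_mul_eq_one hc]
  ext k
  rw [Polynomial.coe_sub, Polynomial.coe_one, Polynomial.coe_mul, Polynomial.coe_C,
    Polynomial.coe_X, mul_sub, mul_one, map_sub, coeff_mk, coeff_one]
  have h1 : (PowerSeries.mk fun k => (κ : ℚ) ^ k) * (C (κ : ℚ) * X) =
      C (κ : ℚ) * ((PowerSeries.mk fun k => (κ : ℚ) ^ k) * X) := by ring
  rw [h1, coeff_C_mul]
  rcases k with _ | k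
  · rw [coeff_zero_mul_X]
    simp
  · rw [coeff_succ_mul_X, coeff_mk, if_neg (Nat.succ_ne_zero k), pow_succ]
    ring

theorem geo_gV (κ : ℕ) : Geo 1 (κ + 1) (gV κ) := by
  intro n
  rw [gV_eq, coeff_mk]
  refine ⟨⟨(κ : ℤ) ^ n, by push_cast; ring⟩, ?_⟩
  rw [abs_of_nonneg (by positivity)]
  push_cast
  have h0 : (0 : ℚ) ≤ κ := Nat.cast_nonneg _
  calc (κ : ℚ) ^ n ≤ ((κ : ℚ) + 1) ^ n := pow_le_pow_left₀ h0 (by linarith) _
    _ ≤ ((κ : ℚ) + 1) ^ (n + 1) := pow_le_pow_right₀ (by linarith) (by omega)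

theorem rvp_X (κ : ℕ) : rvp (Polynomial.X : Polynomial ℚ) κ =
    1 - Polynomial.C (κ : ℚ) * Polynomial.X := by
  unfold rvp
  rw [Polynomial.natDegree_X, Finset.sum_range_succ, Finset.sum_range_one,
    Polynomial.coeff_X_zero, Polynomial.coeff_X_one]
  simp

theorem gtc_neg {B : ℕ} {f : PowerSeries ℚ} (hf : GTC B f) : GTC B (-f) := by
  intro k
  rw [map_neg, abs_neg]
  refine ⟨(hf k).1, ?_⟩
  obtain ⟨D, h1, h2, h3⟩ := (hf k).2
  refine ⟨D, h1, h2, fun i hi => ?_⟩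
  obtain ⟨z, hz⟩ := h3 i hi
  refine ⟨-z, ?_⟩
  rw [map_neg, mul_neg, hz, Int.cast_neg]

theorem gtc_lgp : ∃ a : ℕ, ∀ B κ : ℕ, 2 ≤ B → κ ≤ B →
    GTC (B ^ a) (lgp (Polynomial.X : Polynomial ℚ) κ) := by
  obtain ⟨A, hA, hp⟩ := gtc_prim
  refine ⟨A + 1, ?_⟩
  intro B κ hB hκ
  have h0 : GTC B (-((Polynomial.derivative (rvp (Polynomial.X : Polynomial ℚ) κ) :
      Polynomial ℚ) : PowerSeries ℚ) *
      ((rvp (Polynomial.X : Polynomial ℚ) κ : Polynomial ℚ) : PowerSeries ℚ)⁻¹) := by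
    have h1 : -((Polynomial.derivative (rvp (Polynomial.X : Polynomial ℚ) κ) :
        Polynomial ℚ) : PowerSeries ℚ) *
        ((rvp (Polynomial.X : Polynomial ℚ) κ : Polynomial ℚ) : PowerSeries ℚ)⁻¹ =
        C (κ : ℚ) * gV κ := by
      rw [rvp_X]
      have h2 : Polynomial.derivative (1 - Polynomial.C (κ : ℚ) * Polynomial.X) =
          -Polynomial.C (κ : ℚ) := by simp
      rw [h2, Polynomial.coe_neg, Polynomial.coe_C, neg_neg]
      rfl
    rw [h1]
    intro k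
    have h3 : ∀ i, coeff i (C (κ : ℚ) * gV κ) = (κ : ℚ) ^ (i + 1) := by
      intro i
      rw [coeff_C_mul, gV_eq, coeff_mk, pow_succ]
      ring
    refine ⟨?_, 1, Nat.one_pos, Nat.one_le_pow _ _ (by omega), ?_⟩
    · rw [h3, abs_of_nonneg (by positivity)]
      exact pow_le_pow_left₀ (Nat.cast_nonneg _) (by exact_mod_cast hκ) _
    · intro i _
      refine ⟨(κ : ℤ) ^ (i + 1), ?_⟩
      rw [h3]
      push_cast
      ring
  have h4 := hp B _ (by omega) h0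
  have h5 : A * B ≤ B ^ (A + 1) := by
    rw [pow_succ]
    exact Nat.mul_le_mul_right _ ((Nat.lt_two_pow_self).le.trans (Nat.pow_le_pow_left hB _))
  exact gtc_mono h5 h4

/-! ### Matrices -/

theorem pow_two_le {B a b : ℕ} (hB : 2 ≤ B) (h : a ≤ b) : B ^ a ≤ B ^ b :=
  Nat.pow_le_pow_right (by omega) h

theorem gtc_mul (hG : GtpStmt) (n : ℕ) : ∃ a : ℕ, ∀ (d : Type) [Fintype d] [DecidableEq d]
    (M M' : Matrix d d (PowerSeries ℚ)) (B : ℕ), 2 ≤ B → Fintype.card d ≤ n →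
    (∀ i j, GTC B (M i j)) → (∀ i j, GTC B (M' i j)) → ∀ i j, GTC (B ^ a) ((M * M') i j) := by
  obtain ⟨a, ha⟩ := hG.2.1 n
  refine ⟨4 * a, ?_⟩
  intro d _ _ M M' B hB hc h1 h2 i j
  rw [Matrix.mul_apply, pow_mul]
  exact (ha d (B ^ 4) _ (hB.trans (Nat.le_self_pow (by norm_num) B)) hc
    fun k => (hG.1 B _ _ hB (h1 i k) (h2 k j)).1).1

theorem gtc_pow (hG : GtpStmt) (n : ℕ) : ∃ a : ℕ, ∀ (B : ℕ) (f : PowerSeries ℚ), 2 ≤ B →
    GTC B f → ∀ j ≤ n, GTC (B ^ a) (f ^ j) := by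
  obtain ⟨a, ha⟩ := hG.2.1 n
  refine ⟨a, ?_⟩
  intro B f hB hf j hj
  have h := (ha (Fin j) B (fun _ => f) hB (by rw [Fintype.card_fin]; exact hj) fun _ => hf).2
  rwa [Finset.prod_const, Finset.card_univ, Fintype.card_fin] at h

theorem powN_le {d : Type} [Fintype d] [DecidableEq d] {n B : ℕ} {N : Matrix d d ℤ}
    (hc : Fintype.card d ≤ n) (hN : ∀ i j, |N i j| ≤ (B : ℤ)) (j : ℕ) (i k : d) :
    |(N ^ j) i k| ≤ (((n + 1) * B : ℕ) : ℤ) ^ j := by
  induction j generalizing i k with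
  | zero =>
    rw [pow_zero, pow_zero, Matrix.one_apply]
    split_ifs <;> simp
  | succ j ih =>
    rw [pow_succ, Matrix.mul_apply]
    refine (Finset.abs_sum_le_sum_abs _ _).trans ?_
    have h1 : ∀ l ∈ (Finset.univ : Finset d), |(N ^ j) i l * N l k| ≤
        (((n + 1) * B : ℕ) : ℤ) ^ j * B := by
      intro l _
      rw [abs_mul]
      exact mul_le_mul (ih i l) (hN l k) (abs_nonneg _) (by positivity)
    refine (Finset.sum_le_sum h1).trans ?_
    rw [Finset.sum_const, Finset.card_univ, nsmul_eq_mul, pow_succ]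
    have h2 : (Fintype.card d : ℤ) ≤ n + 1 := by exact_mod_cast hc.trans (Nat.le_succ n)
    have h3 : (0 : ℤ) ≤ (((n + 1) * B : ℕ) : ℤ) ^ j * B := by positivity
    calc (Fintype.card d : ℤ) * ((((n + 1) * B : ℕ) : ℤ) ^ j * B)
        ≤ (n + 1) * ((((n + 1) * B : ℕ) : ℤ) ^ j * B) := mul_le_mul_of_nonneg_right h2 h3
      _ = (((n + 1) * B : ℕ) : ℤ) ^ j * (((n + 1) * B : ℕ) : ℤ) := by
        push_cast
        ring

theorem gtc_eN (hG : GtpStmt) (n : ℕ) : ∃ a : ℕ, ∀ (d : Type) [Fintype d] [DecidableEq d]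
    (N : Matrix d d ℤ) (f : PowerSeries ℚ) (B : ℕ), 2 ≤ B → Fintype.card d ≤ n →
    (∀ i j, |N i j| ≤ (B : ℤ)) → GTC B f → ∀ i j, GTC (B ^ a) (eN N f i j) := by
  obtain ⟨a, ha⟩ := hG.2.1 n
  obtain ⟨b, hb⟩ := gtc_pow hG n
  obtain ⟨c, hc⟩ := hG.2.2.2
  obtain ⟨e, he⟩ : ∃ e, e = n.factorial + (n + 2) * n := ⟨_, rfl⟩
  refine ⟨(4 * (b + e * c + 1)) * a, ?_⟩
  intro d _ _ N f B hB hd hN hf i k
  have h0 : eN N f i k = ∑ j : Fin (Fintype.card d),
      f ^ (j : ℕ) * C (((j : ℕ).factorial : ℚ)⁻¹ * ((N ^ (j : ℕ)) i k : ℚ)) := by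
    unfold eN
    rw [Matrix.sum_apply, Finset.sum_range]
    refine Finset.sum_congr rfl fun j _ => ?_
    rw [Matrix.smul_apply, Matrix.map_apply, smul_eq_mul, PowerSeries.smul_eq_C_mul, map_mul,
      map_intCast]
    ring
  have hBe : 2 ≤ B ^ e := by
    have : 1 ≤ e := by
      have := Nat.factorial_pos n
      rw [he]
      omega
    exact hB.trans (Nat.le_self_pow (by omega) B)
  have hr : ∀ j : Fin (Fintype.card d),
      RB (B ^ e) (((j : ℕ).factorial : ℚ)⁻¹ * ((N ^ (j : ℕ)) i k : ℚ)) := by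
    intro j
    have hjn : (j : ℕ) ≤ n := (j.2.le).trans hd
    have hfp : 0 < (j : ℕ).factorial := Nat.factorial_pos _
    constructor
    · have h1 : ((((j : ℕ).factorial : ℚ)⁻¹ * ((N ^ (j : ℕ)) i k : ℚ)).den : ℤ) ∣
          ((j : ℕ).factorial : ℤ) := by
        have h2 : (((j : ℕ).factorial : ℚ)⁻¹ * ((N ^ (j : ℕ)) i k : ℚ)) =
            (((N ^ (j : ℕ)) i k : ℤ) : ℚ) / (((j : ℕ).factorial : ℤ) : ℚ) := by
          rw [div_eq_inv_mul]
          norm_cast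
        rw [h2, ← Rat.divInt_eq_div]
        exact Rat.den_dvd _ _
      have h3 : (((j : ℕ).factorial : ℚ)⁻¹ * ((N ^ (j : ℕ)) i k : ℚ)).den ∣
          (j : ℕ).factorial := by exact_mod_cast h1
      calc (((j : ℕ).factorial : ℚ)⁻¹ * ((N ^ (j : ℕ)) i k : ℚ)).den
          ≤ (j : ℕ).factorial := Nat.le_of_dvd hfp h3
        _ ≤ n.factorial := Nat.factorial_le hjn
        _ ≤ B ^ n.factorial := (Nat.lt_two_pow_self).le.trans (Nat.pow_le_pow_left hB _)
        _ ≤ B ^ e := pow_two_le hB (by omega)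
    · rw [abs_mul, abs_inv, Nat.abs_cast]
      have h1 : (((j : ℕ).factorial : ℚ))⁻¹ ≤ 1 := by
        apply inv_le_one_of_one_le₀
        exact_mod_cast hfp
      have h2 : |((N ^ (j : ℕ)) i k : ℚ)| ≤ (((n + 1) * B : ℕ) : ℚ) ^ (j : ℕ) := by
        have := powN_le hd hN (j : ℕ) i k
        exact_mod_cast this
      have h3 : ((n + 1) * B) ^ (j : ℕ) ≤ B ^ e := by
        have h4 : (n + 1) * B ≤ B ^ (n + 2) := by
          rw [pow_succ]
          exact Nat.mul_le_mul_right _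
            ((Nat.lt_two_pow_self).le.trans (Nat.pow_le_pow_left hB _))
        calc ((n + 1) * B) ^ (j : ℕ) ≤ (B ^ (n + 2)) ^ (j : ℕ) := Nat.pow_le_pow_left h4 _
          _ = B ^ ((n + 2) * (j : ℕ)) := (pow_mul _ _ _).symm
          _ ≤ B ^ e := pow_two_le hB
            ((Nat.mul_le_mul_left _ hjn).trans (by omega))
      calc (((j : ℕ).factorial : ℚ))⁻¹ * |((N ^ (j : ℕ)) i k : ℚ)|
          ≤ 1 * (((n + 1) * B : ℕ) : ℚ) ^ (j : ℕ) :=
            mul_le_mul h1 h2 (abs_nonneg _) (by norm_num)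
        _ ≤ ((B ^ e : ℕ) : ℚ) := by
          rw [one_mul]
          exact_mod_cast h3
  have hterm : ∀ j : Fin (Fintype.card d), GTC (B ^ (4 * (b + e * c + 1)))
      (f ^ (j : ℕ) * C (((j : ℕ).factorial : ℚ)⁻¹ * ((N ^ (j : ℕ)) i k : ℚ))) := by
    intro j
    have h1 : GTC (B ^ (b + e * c + 1)) (f ^ (j : ℕ)) :=
      gtc_mono (pow_two_le hB (by omega)) (hb B f hB hf j (j.2.le.trans hd))
    have h2 : GTC (B ^ (b + e * c + 1))
        (C (((j : ℕ).factorial : ℚ)⁻¹ * ((N ^ (j : ℕ)) i k : ℚ))) := by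
      refine gtc_mono ?_ (hc (B ^ e) _ hBe (hr j))
      rw [← pow_mul]
      exact pow_two_le hB (by omega)
    have h3 : 2 ≤ B ^ (b + e * c + 1) := hB.trans (Nat.le_self_pow (by omega) B)
    have h4 := (hG.1 _ _ _ h3 h1 h2).1
    rwa [← pow_mul, mul_comm (b + e * c + 1) 4] at h4
  rw [h0, pow_mul]
  exact (ha (Fin (Fintype.card d)) _ _ (hB.trans (Nat.le_self_pow (by omega) B))
    (by rw [Fintype.card_fin]; exact hd) hterm).1

theorem gtc_diag (hb : BnpStmt) : ∃ a : ℕ, ∀ (d : Type) [Fintype d] [DecidableEq d]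
    (ε : d → ℚ) (B κ : ℕ), 2 ≤ B → κ ≤ B → (∀ i, RB B (ε i)) → ∀ i j,
    GTC (B ^ a) ((diagonal fun i => bn κ (ε i) : Matrix d d (PowerSeries ℚ)) i j) := by
  obtain ⟨a, ha⟩ := hb
  refine ⟨a, ?_⟩
  intro d _ _ ε B κ hB hκ hε i j
  rw [diagonal_apply]
  split_ifs
  · exact ha B κ hB hκ _ (hε i)
  · intro k
    refine ⟨?_, 1, Nat.one_pos, Nat.one_le_pow _ _ (Nat.pos_of_ne_zero (by positivity)), ?_⟩
    · rw [map_zero, abs_zero]
      positivity
    · intro i _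
      exact ⟨0, by simp⟩

/-- TRB -/
theorem trb (hG : GtpStmt) (hb : BnpStmt) : TrbStmt := by
  intro n
  obtain ⟨a1, h1⟩ := gtc_mul hG n
  obtain ⟨a2, h2⟩ := gtc_eN hG n
  obtain ⟨a3, h3⟩ := gtc_diag hb
  obtain ⟨a4, h4⟩ := gtc_lgp
  obtain ⟨c, hc⟩ : ∃ c, c = (a4 + 1) * a2 + a3 + 5 := ⟨_, rfl⟩
  obtain ⟨c', hc'⟩ : ∃ c', c' = c * a1 + c := ⟨_, rfl⟩
  refine ⟨c' * a1, ?_⟩
  intro d _ _ H K N δ q Bm B κ hS hκ
  have hB := hS.two
  have hmob : mobp (Polynomial.X : Polynomial ℚ) κ = X * gV κ := by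
    unfold mobp gV
    rw [rvp_X, Polynomial.natDegree_X, pow_one]
  have hV := geo_gV κ
  have hsv : ∀ {f : PowerSeries ℚ}, GTC B f → GTC (B ^ c) (sv (gV κ) f) := by
    intro f hf
    have h5 := gtc_sv (by omega) (Nat.succ_pos κ) hV hf
    refine gtc_mono ?_ h5
    calc 4 * B * (κ + 1) ≤ B ^ 2 * B * B ^ 2 := by
          apply Nat.mul_le_mul
          · apply Nat.mul_le_mul_right
            nlinarith
          · nlinarith
      _ = B ^ 5 := by ring
      _ ≤ B ^ c := pow_two_le hB (by omega)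
  have hl : ∀ s : PowerSeries ℚ, GTC (B ^ (a4 + 1)) s → ∀ i j, GTC (B ^ c) (eN N s i j) := by
    intro s hs i j
    have hB' : 2 ≤ B ^ (a4 + 1) := hB.trans (Nat.le_self_pow (by omega) B)
    have h5 := h2 d N s (B ^ (a4 + 1)) hB' hS.card
      (fun i j => (hS.hN i j).trans (by exact_mod_cast Nat.le_self_pow (by omega) B)) hs i j
    rw [← pow_mul] at h5
    exact gtc_mono (pow_two_le hB (by omega)) h5
  have hl1 : GTC (B ^ (a4 + 1)) (lgp (Polynomial.X : Polynomial ℚ) κ) :=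
    gtc_mono (pow_two_le hB (by omega)) (h4 B κ hB hκ)
  have hBc : 2 ≤ B ^ c := hB.trans (Nat.le_self_pow (by omega) B)
  have hBc' : 2 ≤ B ^ c' := hB.trans (Nat.le_self_pow (by rw [hc']; omega) B)
  have hcc : c * a1 ≤ c' := by rw [hc']; omega
  have hδ1 : ∀ i, RB B (-δ i) := by
    intro i
    refine ⟨?_, ?_⟩
    · rw [Rat.neg_den]
      exact (hS.hδ i).1
    · rw [abs_neg]
      exact (hS.hδ i).2
  intro i j
  constructor
  · have e1 : TrD H N δ κ = (H.map (sv (gV κ)) * eN N (lgp (Polynomial.X : Polynomial ℚ) κ)) *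
        diagonal fun i => bn κ (-δ i) := by
      unfold TrD TrG
      congr 2
      refine Matrix.ext fun i j => ?_
      rw [Matrix.map_apply, Matrix.map_apply, sv_apply, hmob]
    rw [e1, pow_mul]
    refine h1 d _ _ (B ^ c') hBc' hS.card ?_ ?_ i j
    · intro i j
      have h5 := h1 d (H.map (sv (gV κ))) (eN N (lgp (Polynomial.X : Polynomial ℚ) κ)) (B ^ c)
        hBc hS.card (fun i j => by rw [Matrix.map_apply]; exact hsv (hS.gH i j))
        (hl _ hl1) i j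
      rw [← pow_mul] at h5
      exact gtc_mono (pow_two_le hB hcc) h5
    · intro i j
      exact gtc_mono (pow_two_le hB (by omega)) (h3 d (fun i => -δ i) B κ hB hκ hδ1 i j)
  · unfold TrK
    rw [pow_mul]
    refine h1 d _ _ (B ^ c') hBc' hS.card ?_ ?_ i j
    · intro i j
      exact gtc_mono (pow_two_le hB (by omega)) (h3 d δ B κ hB hκ hS.hδ i j)
    · intro i j
      have h5 := h1 d (eN N (-lgp (Polynomial.X : Polynomial ℚ) κ)) (K.map (sv (gV κ))) (B ^ c)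
        hBc hS.card (hl _ (gtc_neg hl1))
        (fun i j => by rw [Matrix.map_apply]; exact hsv (hS.gK i j)) i j
      rw [← pow_mul] at h5
      exact gtc_mono (pow_two_le hB hcc) h5

end

end Pool.Agent.PSV.H86
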